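import Pool.Agent.Helper68.Fam.Defs
import Mathlib.Logic.Relation

/-!
# Project FAM, part 6: the whole families

`Family G₀ G`: `G` is obtained from `G₀` by a finite sequence of nabla-Y moves and inverses of
nabla-Y moves. If all degrees of `G` are at least seven, the family of `G` consists of the graphs
`YG G F`.
-/

namespace NApexGraphs.Fam

open SimpleGraph NApexGraphs NApexGraphs.Dom

/-- the graph obtained by the nabla-Y move on the triangle `a b c`; the new vertex is `none` -/
def nablaY {V : Type} (G : SimpleGraph V) (a b c : V) : SimpleGraph (Option V) where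
  Adj x y := match x, y with
    | some p, some q => G.Adj p q ∧ ¬ ((p = a ∨ p = b ∨ p = c) ∧ (q = a ∨ q = b ∨ q = c))
    | some p, none => p = a ∨ p = b ∨ p = c
    | none, some q => q = a ∨ q = b ∨ q = c
    | none, none => False
  symm := ⟨by
    rintro (_ | x) (_ | y) h
    · exact h
    · exact h
    · exact h
    · exact ⟨h.1.symm, fun h' => h.2 ⟨h'.2, h'.1⟩⟩⟩
  loopless := ⟨by
    rintro (_ | x) h
    · exact h
    · exact h.1.ne rfl⟩

/-- `B` is isomorphic to `A`, or obtained from `A` by one nabla-Y move -/
def Move (A B : (V : Type) × SimpleGraph V) : Prop :=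
  Nonempty (A.2 ≃g B.2) ∨ ∃ a b c, A.2.Adj a b ∧ A.2.Adj a c ∧ A.2.Adj b c ∧
    Nonempty (B.2 ≃g nablaY A.2 a b c)

/-- `G` is in the family of `G₀`: it is obtained from `G₀` by a finite sequence of nabla-Y moves
and inverses of nabla-Y moves (up to isomorphism). -/
def Family {V₀ V : Type} (G₀ : SimpleGraph V₀) (G : SimpleGraph V) : Prop :=
  Relation.EqvGen Move ⟨V₀, G₀⟩ ⟨V, G⟩

namespace Goals

/-- **UP**. A nabla-Y move on `YG G F` gives a graph of the same form.

Proof. The neighbours of `inr T` are pairwise not adjacent (`inl x, inl y` with `x, y ∈ T`), so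
`a, b, c` are `inl a', inl b', inl c'` with `a', b', c'` pairwise adjacent in `G` and no pair of them
covered by a member of `F`. `T' = {a', b', c'}` is not in `F`; `F' = insert T' F`: `Tri G F'` (a `T ∈ F`
with two points in common with `T'` would cover a pair). The isomorphism: `none ↦ inr T'`,
`some (inl x) ↦ inl x`, `some (inr T) ↦ inr T`. -/
def UP : Prop :=
  ∀ (V : Type) [Finite V] [DecidableEq V] (G : SimpleGraph V) (F : Finset (Finset V)), Tri G F →
    ∀ a b c : V ⊕ {T // T ∈ F}, (YG G F).Adj a b → (YG G F).Adj a c → (YG G F).Adj b c →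
    ∃ F' : Finset (Finset V), Tri G F' ∧ Nonempty (nablaY (YG G F) a b c ≃g YG G F')

/-- **DOWN**. An inverse nabla-Y move at a vertex `inr T` of `YG G F`.

Proof. `F' = F.erase T`. The neighbours `some a, some b, some c` of `none` (three different vertices)
are mapped by `e` onto the neighbours `inl t`, `t ∈ T`, of `inr T`. Map `w : W` to `e (some w)`, which is
`inl x` or `inr T'` with `T' ≠ T` (injectivity of `e`), read in `V ⊕ {T // T ∈ F.erase T}`. It is a
bijection. If `w, w'` are not both in `{a, b, c}`: `A.Adj w w'` iff `some w, some w'` are adjacent iff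
the images in `YG G F` are adjacent iff they are adjacent in `YG G (F.erase T)` (two points which are
not both in `T` are covered by the same members of `F` and of `F.erase T`). If `w ≠ w'` are both in
`{a, b, c}`, they are adjacent in `A`, and the images `inl x, inl y`, `x ≠ y ∈ T`, are adjacent in
`YG G (F.erase T)` (`T` is a clique of `G`, and no other member of `F` contains `x` and `y`). -/
def DOWN : Prop :=
  ∀ (V : Type) [Finite V] [DecidableEq V] (G : SimpleGraph V) (F : Finset (Finset V)), Tri G F →
    ∀ (W : Type) (A : SimpleGraph W) (a b c : W), A.Adj a b → A.Adj a c → A.Adj b c →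
    ∀ (e : nablaY A a b c ≃g YG G F) (T : {T // T ∈ F}), e none = Sum.inr T →
    ∃ F' : Finset (Finset V), Tri G F' ∧ Nonempty (A ≃g YG G F')

/-- **DEG**. If `x` has at least seven neighbours in `G`, then `inl x` has at least four neighbours
in `YG G F`.

Proof. Let `k` be the number of the `T ∈ F` with `x ∈ T`. They pairwise have only `x` in common, and
their other points are neighbours of `x`: `2 k ≤ d`, `d ≥ 7` the number of neighbours. The
neighbours of `inl x` are these `k` vertices `inr T` and the `d - 2 k` other neighbours `inl y`: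
`d - k ≥ d / 2 ≥ 7 / 2`. (`Set.encard` or finsets. Convenient: if `x` had only three neighbours in
`YG G F`, map every neighbour `y` of `x` in `G` to `inl y` or to the `inr T` with `x, y ∈ T`; every
`inr T` has two preimages, every `inl y` one, so `7 ≤ 2 * 3`, contradiction.) -/
def DEG : Prop :=
  ∀ (V : Type) [Finite V] [DecidableEq V] (G : SimpleGraph V) (F : Finset (Finset V)), Tri G F →
    ∀ x : V, 7 ≤ (G.neighborSet x).ncard → 4 ≤ ((YG G F).neighborSet (Sum.inl x)).ncard

/-- **CLOSE**. (Hypotheses: UP, DOWN, DEG.) The family of a graph with all degrees at least seven.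

Proof. For `A : (V : Type) × SimpleGraph V` let `P A` be: there is `F` with `Tri G F` and
`Nonempty (A.2 ≃g YG G F)`. `P ⟨V, G⟩` holds with `F = ∅`. If `Move A B` then `P A ↔ P B`: clear for an
isomorphism. Let `B.2 ≃g nablaY A.2 a b c`. `P A → P B`: transport `a, b, c` to `YG G F` (an isomorphism
`A.2 ≃g YG G F` gives `nablaY A.2 a b c ≃g nablaY (YG G F) a' b' c'`), UP. `P B → P A`: an
isomorphism `e : nablaY A.2 a b c ≃g YG G F`; `none` has exactly three neighbours, so `e none` has
exactly three neighbours and by DEG it is not `inl x`; DOWN. Then by induction on `EqvGen`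
`P ⟨V, G⟩ ↔ P A` for all `A` in the family. -/
def CLOSE : Prop :=
  ∀ (V : Type) [Finite V] [DecidableEq V] (G : SimpleGraph V),
    (∀ x : V, 7 ≤ (G.neighborSet x).ncard) → ∀ (W : Type) (A : SimpleGraph W), Family G A →
    ∃ F : Finset (Finset V), Tri G F ∧ Nonempty (A ≃g YG G F)

end Goals

end NApexGraphs.Fam
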