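import Pool.Agent.Helper68.Fam.Goals
import Pool.Agent.Helper68.Fam.Family

/-!
# Project FAM: the whole families
-/

namespace NApexGraphs.Fam.Helper68

open SimpleGraph NApexGraphs NApexGraphs.Dom NApexGraphs.Fam

theorem deg_top (n : ℕ) (hn : 3 ≤ n) (x : Fin (n + 5)) :
    7 ≤ ((⊤ : SimpleGraph (Fin (n + 5))).neighborSet x).ncard := by
  classical
  have h1 : (⊤ : SimpleGraph (Fin (n + 5))).neighborSet x = ((Finset.univ.erase x : Finset _) :
      Set (Fin (n + 5))) := by
    ext y
    simp [SimpleGraph.mem_neighborSet, eq_comm]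
  rw [h1, Set.ncard_coe_finset, Finset.card_erase_of_mem (Finset.mem_univ x), Finset.card_univ,
    Fintype.card_fin]
  omega

theorem deg_K331 (n : ℕ) (hn : 4 ≤ n) (x : Fin 3 ⊕ Fin 3 ⊕ Fin n) :
    7 ≤ ((K331 n).neighborSet x).ncard := by
  classical
  -- non-neighbours: at most three
  have key : ∀ N : Finset (Fin 3 ⊕ Fin 3 ⊕ Fin n), N.card ≤ 3 → (∀ y, y ∉ N → (K331 n).Adj x y) →
      7 ≤ ((K331 n).neighborSet x).ncard := by
    intro N hN h
    have h1 : ((Finset.univ \ N : Finset (Fin 3 ⊕ Fin 3 ⊕ Fin n)) : Set _) ⊆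
        (K331 n).neighborSet x := by
      intro y hy
      rw [SimpleGraph.mem_neighborSet]
      apply h
      simpa using hy
    have h2 := Set.ncard_le_ncard h1 (Set.toFinite _)
    rw [Set.ncard_coe_finset, Finset.card_sdiff_of_subset (Finset.subset_univ _),
      Finset.card_univ] at h2
    simp only [Fintype.card_sum, Fintype.card_fin] at h2
    omega
  rcases x with i | i | i
  · apply key (Finset.univ.image fun j : Fin 3 => Sum.inl j)
    · exact Finset.card_image_le.trans (by simp)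
    · intro y hy
      refine ⟨?_, ?_, ?_⟩
      · rintro rfl
        exact hy (Finset.mem_image.2 ⟨i, Finset.mem_univ _, rfl⟩)
      · rintro ⟨_, h⟩
        rcases y with j | j
        · exact hy (Finset.mem_image.2 ⟨j, Finset.mem_univ _, rfl⟩)
        · simp at h
      · rintro ⟨⟨j, h⟩, _⟩
        simp at h
  · apply key (Finset.univ.image fun j : Fin 3 => Sum.inr (Sum.inl j))
    · exact Finset.card_image_le.trans (by simp)
    · intro y hy
      refine ⟨?_, ?_, ?_⟩
      · rintro rfl
        exact hy (Finset.mem_image.2 ⟨i, Finset.mem_univ _, rfl⟩)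
      · rintro ⟨h, _⟩
        simp at h
      · rintro ⟨_, ⟨j, rfl⟩⟩
        exact hy (Finset.mem_image.2 ⟨j, Finset.mem_univ _, rfl⟩)
  · apply key {Sum.inr (Sum.inr i)}
    · simp
    · intro y hy
      refine ⟨?_, ?_, ?_⟩
      · rintro rfl
        exact hy (Finset.mem_singleton_self _)
      · rintro ⟨h, _⟩
        simp at h
      · rintro ⟨⟨j, h⟩, _⟩
        simp at h

theorem family_top (h1 : Goals.MIN1) (hC : Goals.CLOSE) (n : ℕ) (hn : 3 ≤ n) (V : Type)
    (G : SimpleGraph V) (hG : Family (⊤ : SimpleGraph (Fin (n + 5))) G) : MinMinimal n G := by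
  obtain ⟨F, hF, ⟨e⟩⟩ := hC _ _ (deg_top n hn) V G hG
  exact (h1 n F (by omega) hF).of_iso e.symm

theorem family_K331 (h2 : Goals.MIN2) (hC : Goals.CLOSE) (n : ℕ) (hn : 4 ≤ n) (V : Type)
    (G : SimpleGraph V) (hG : Family (K331 n) G) : MinMinimal n G := by
  obtain ⟨F, hF, ⟨e⟩⟩ := hC _ _ (deg_K331 n hn) V G hG
  exact (h2 n F (by omega) hF).of_iso e.symm

end NApexGraphs.Fam.Helper68
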