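import Pool.Agent.Helper68.Fam.Goals

/-!
# Project FAM: packet NOT2

The graph `YG (K331 n) F` is not `n`-apex (after Helper8/Fam/NOT1).
-/

namespace NApexGraphs.Fam.Helper68

open SimpleGraph NApexGraphs NApexGraphs.Dom NApexGraphs.Fam

theorem gNOT2 (hT : Goals.TRANSFER) (hB : Goals.BASE2) : Goals.NOT2 := by
  classical
  intro n F hF
  rintro ⟨X, hX, hpl⟩
  rw [← pl_iff] at hpl
  revert hpl
  refine hT (Fin 3 ⊕ Fin 3 ⊕ Fin n) (K331 n) F X (fun T hTF => (hF.card T hTF).le) ?_
  let W := Fin 3 ⊕ Fin 3 ⊕ Fin n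
  let S : Finset (Finset W) :=
    F.filter fun T => ∃ h : T ∈ F, (Sum.inr ⟨T, h⟩ : W ⊕ {T // T ∈ F}) ∈ X
  let P : Finset W :=
    Finset.univ.filter fun v => (Sum.inl v : W ⊕ {T // T ∈ F}) ∉ X
  have hP : (P : Set W) =
      {v | (Sum.inl v : W ⊕ {T // T ∈ F}) ∉ X} := by
    ext v
    simp [P]
  rw [← hP]
  have memS : ∀ T, T ∈ S ↔
      ∃ h : T ∈ F, (Sum.inr ⟨T, h⟩ : W ⊕ {T // T ∈ F}) ∈ X := by
    intro T
    simp only [S, Finset.mem_filter]
    constructor
    · rintro ⟨_, h⟩; exact h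
    · rintro ⟨h, h'⟩; exact ⟨h, h, h'⟩
  let A : Finset W := Finset.univ.image fun i : Fin 3 => (Sum.inl i : W)
  let B : Finset W := Finset.univ.image fun i : Fin 3 => (Sum.inr (Sum.inl i) : W)
  refine hB W _ P A B S ⟨?_, ?_, ?_, ?_, ?_, ?_, ?_⟩
  · calc A.card ≤ (Finset.univ : Finset (Fin 3)).card := Finset.card_image_le
      _ = 3 := by simp
  · calc B.card ≤ (Finset.univ : Finset (Fin 3)).card := Finset.card_image_le
      _ = 3 := by simp
  · rw [Finset.disjoint_left]
    intro x hx hx'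
    simp only [A, B, Finset.mem_image, Finset.mem_univ, true_and] at hx hx'
    obtain ⟨i, rfl⟩ := hx
    obtain ⟨j, hj⟩ := hx'
    exact absurd hj (by simp)
  · intro T h
    obtain ⟨h1, _⟩ := (memS T).1 h
    exact (hF.card T h1).le
  · intro T h T' h' hne
    obtain ⟨h1, _⟩ := (memS T).1 h
    obtain ⟨h2, _⟩ := (memS T').1 h'
    exact hF.pair T h1 T' h2 hne
  · -- counting
    let Pc : Finset W :=
      Finset.univ.filter fun v => ¬ ((Sum.inl v : W ⊕ {T // T ∈ F}) ∉ X)
    have hcW : (Finset.univ : Finset W).card = n + 6 := by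
      simp [W, Fintype.card_sum]
      omega
    have h1 : P.card + Pc.card = n + 6 := by
      have := Finset.card_filter_add_card_filter_not (s := (Finset.univ : Finset W))
        (fun v => (Sum.inl v : W ⊕ {T // T ∈ F}) ∉ X)
      rw [hcW] at this
      exact this
    let f : Finset W → W ⊕ {T // T ∈ F} :=
      fun T => if h : T ∈ F then Sum.inr ⟨T, h⟩ else Sum.inl (Sum.inl 0)
    have hf : ∀ T (h : T ∈ F), f T = Sum.inr ⟨T, h⟩ := fun T h => dif_pos h
    have h2 : (Pc.image Sum.inl ∪ S.image f) ⊆ X := by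
      intro z hz
      rw [Finset.mem_union, Finset.mem_image, Finset.mem_image] at hz
      rcases hz with ⟨v, hv, rfl⟩ | ⟨T, hT', rfl⟩
      · simp only [Pc, Finset.mem_filter, Finset.mem_univ, true_and, not_not] at hv
        exact hv
      · obtain ⟨h, h'⟩ := (memS T).1 hT'
        rw [hf T h]
        exact h'
    have h3 : Disjoint (Pc.image (Sum.inl : W → W ⊕ {T // T ∈ F}))
        (S.image f) := by
      rw [Finset.disjoint_left]
      intro z hz hz'
      rw [Finset.mem_image] at hz hz'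
      obtain ⟨v, _, rfl⟩ := hz
      obtain ⟨T, hT', e⟩ := hz'
      obtain ⟨h, _⟩ := (memS T).1 hT'
      rw [hf T h] at e
      exact absurd e (by simp)
    have h4 : (Pc.image (Sum.inl : W → W ⊕ {T // T ∈ F})).card = Pc.card :=
      Finset.card_image_of_injective _ Sum.inl_injective
    have h5 : (S.image f).card = S.card := by
      apply Finset.card_image_of_injOn
      intro T hT' T' hT'' e
      obtain ⟨h, _⟩ := (memS T).1 hT'
      obtain ⟨h', _⟩ := (memS T').1 hT''
      rw [hf T h, hf T' h'] at e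
      exact congrArg Subtype.val (Sum.inr_injective e)
    have h6 := Finset.card_le_card h2
    rw [Finset.card_union_of_disjoint h3, h4, h5] at h6
    omega
  · intro x _ y _ hxy hA hBB h
    refine ⟨⟨hxy, ?_, ?_⟩, ?_⟩
    · rintro ⟨h1, h2⟩
      apply hA
      rcases x with x | x
      · rcases y with y | y
        · exact ⟨by simp [A], by simp [A]⟩
        · simp at h2
      · simp at h1
    · rintro ⟨⟨i, rfl⟩, ⟨j, rfl⟩⟩
      exact hBB ⟨by simp [B], by simp [B]⟩
    · rintro T ⟨h1, h2⟩ h3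
      exact h T ((memS T).2 ⟨h1, h2⟩) h3

end NApexGraphs.Fam.Helper68
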