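import Pool.Agent.Helper4.Fam.ECON
import Pool.Agent.Helper4.Fam.ECOUNT
import Pool.Agent.Helper4.Fam.UP
import Pool.Agent.Helper8.Fam.NOT1
import Pool.Agent.Helper13.Fam.NORM2
import Pool.Agent.Helper14.Fam.CLOSE
import Pool.Agent.Helper14.Fam.MADER
import Pool.Agent.Helper15.Fam.DY
import Pool.Agent.Helper23.Fam.TWO3
import Pool.Agent.Helper25.Fam.KILL
import Pool.Agent.Helper27.Fam.OUT
import Pool.Agent.Helper39.Fam.MINC
import Pool.Agent.Helper45.Fam.TRANSFER
import Pool.Agent.Helper46.Fam.TWO2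
import Pool.Agent.Helper53.Fam.BASE2
import Pool.Agent.Helper57.Fam.BASE1
import Pool.Agent.Helper68.Fam.Main
import Pool.Agent.Helper68.Fam.NOT2
import Pool.Agent.Helper69.Fam.RED
import Pool.Agent.Helper70.Fam.MIN1
import Pool.Agent.Helper72.Fam.MIN2
import Pool.Agent.Helper86.Fam.KEEPS
import Pool.Agent.Helper89.Fam.DEG
import Pool.Agent.Helper91.Fam.POLE
import Pool.Agent.Helper96.Fam.PLANE

/-!
# Project FAM: assembly
-/

namespace NApexGraphs.Fam.Helper68

open SimpleGraph NApexGraphs NApexGraphs.Dom NApexGraphs.Fam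

theorem assemble (h1 : Goals.TWO1) (hC : Goals.OUT → Goals.CYC) (hD : Goals.DOWN) :
    Goals.MIN1 ∧ Goals.MIN2 ∧ Goals.CLOSE := by
  have hT : Goals.TRANSFER := Helper45.gTRANSFER Helper15.gDY
  have hM : Goals.MADER := Helper14.gMADER Helper4.gECON
  have hB1 : Goals.BASE1 := Helper57.gBASE1 hM Helper4.gECOUNT
  have h2 : Goals.TWO2 := Helper46.gTWO2 Helper13.gNORM2 Helper25.gKILL h1
  have h3 : Goals.TWO3 := Helper23.gTWO3 Helper13.gNORM2 Helper25.gKILL h2 Helper4.gECON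
    Helper4.gECOUNT hM
  have hB2 : Goals.BASE2 := Helper53.gBASE2 Helper13.gNORM2 h1 h2 h3 hM Helper4.gECOUNT
  have hP : Goals.PLANE := Helper96.gPLANE (Helper91.gPOLE Helper69.gRED (hC Helper27.gOUT))
  exact ⟨Helper70.gMIN1 Helper39.gMINC hP Helper86.gKEEPS (Helper8.gNOT1 hT hB1),
    Helper72.gMIN2 Helper39.gMINC hP Helper86.gKEEPS (gNOT2 hT hB2),
    Helper14.gCLOSE Helper4.gUP hD Helper89.gDEG⟩

end NApexGraphs.Fam.Helper68
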