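import Pool.Agent.Helper68.Fam.Goals

/-!
# Project FAM: packet CYC
-/

namespace NApexGraphs.Fam.Helper68

open SimpleGraph NApexGraphs NApexGraphs.Dom NApexGraphs.Fam

theorem no_model (hOUT : Goals.OUT) {V : Type} [Finite V] {H : SimpleGraph V} {C : Set V}
    {u v : V} (huv : ¬ H.Adj u v) (hu : u ∉ C) (hv : v ∉ C) (hC : Conn H C)
    (hlow : ∀ x ∈ C, Low H C x) {κ : Type} (K : SimpleGraph κ)
    (P1 : ∀ l : κ, ∃ k l1 l2 l3 : κ, k ≠ l ∧ l1 ≠ l ∧ l2 ≠ l ∧ l3 ≠ l ∧ l1 ≠ l2 ∧ l1 ≠ l3 ∧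
      l2 ≠ l3 ∧ K.Adj k l1 ∧ K.Adj k l2 ∧ K.Adj k l3)
    (P2 : ∀ l m : κ, ¬ K.Adj l m → l ≠ m → ∃ k l1 l2 l3 : κ, k ≠ l ∧ l1 ≠ l ∧ l2 ≠ l ∧ l3 ≠ l ∧
      k ≠ m ∧ l1 ≠ m ∧ l2 ≠ m ∧ l3 ≠ m ∧ l1 ≠ l2 ∧ l1 ≠ l3 ∧ l2 ≠ l3 ∧ K.Adj k l1 ∧ K.Adj k l2 ∧
      K.Adj k l3)
    (P3 : ∀ l m : κ, K.Adj l m → ∀ k, k ≠ l → k ≠ m → ∃ l1 l2 : κ, l1 ≠ l ∧ l2 ≠ l ∧ l1 ≠ m ∧
      l2 ≠ m ∧ l1 ≠ l2 ∧ K.Adj k l1 ∧ K.Adj k l2)
    (P4 : ∀ l m : κ, ∃ k, k ≠ l ∧ k ≠ m) (i0 : κ)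
    (B : κ → Set V) (hB : IsModel K H B) (hs : ∀ k, B k ⊆ C ∪ {u, v}) : False := by
  rw [isModel_iff] at hB
  obtain ⟨hc, hd, ha⟩ := hB
  have huniq : ∀ (z : V) (k l : κ), z ∈ B k → z ∈ B l → k = l := by
    intro z k l hk hl
    by_contra hne
    exact Set.disjoint_left.1 (hd k l hne) hk hl
  have hfree : ∀ k, u ∉ B k → v ∉ B k → B k ⊆ C := by
    intro k h1 h2 z hz
    rcases hs k hz with h | h | h
    · exact h
    · exact absurd (h ▸ hz) h1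
    · rw [Set.mem_singleton_iff] at h
      exact absurd (h ▸ hz) h2
  -- an element of `B l` adjacent to `B k`
  have hel : ∀ k l, K.Adj k l → ∃ a ∈ B l, Touch H (B k) {a} := by
    intro k l hkl
    obtain ⟨x, hx, y, hy, hxy⟩ := ha k l hkl
    exact ⟨y, hy, x, hx, y, rfl, hxy⟩
  have hnot : ∀ k l a, K.Adj k l → a ∈ B l → a ∉ B k := by
    intro k l a hkl hal hak
    exact hkl.ne (huniq a k l hak hal)
  -- (A)
  have hA : ∀ k l1 l2 l3, B k ⊆ C → B l1 ⊆ C → B l2 ⊆ C → B l3 ⊆ C → l1 ≠ l2 → l1 ≠ l3 →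
      l2 ≠ l3 → K.Adj k l1 → K.Adj k l2 → K.Adj k l3 → False := by
    intro k l1 l2 l3 hk h1 h2 h3 h12 h13 h23 a1 a2 a3
    obtain ⟨x1, hx1, t1⟩ := hel k l1 a1
    obtain ⟨x2, hx2, t2⟩ := hel k l2 a2
    obtain ⟨x3, hx3, t3⟩ := hel k l3 a3
    rcases hOUT V H C (B k) hlow hk (hc k) x1 ⟨h1 hx1, hnot k l1 x1 a1 hx1⟩ x2
      ⟨h2 hx2, hnot k l2 x2 a2 hx2⟩ x3 ⟨h3 hx3, hnot k l3 x3 a3 hx3⟩ t1 t2 t3 with h | h | h
    · exact h12 (huniq x1 l1 l2 hx1 (h ▸ hx2))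
    · exact h13 (huniq x1 l1 l3 hx1 (h ▸ hx3))
    · exact h23 (huniq x2 l2 l3 hx2 (h ▸ hx3))
  -- (B)
  have hBB : ∀ k l1 l2, B k ⊆ C → B l1 ⊆ C → B l2 ⊆ C → l1 ≠ l2 → K.Adj k l1 → K.Adj k l2 →
      ∀ c ∈ C, c ∉ B k → Touch H (B k) {c} → c ∈ B l1 ∨ c ∈ B l2 := by
    intro k l1 l2 hk h1 h2 h12 a1 a2 c hcC hck hct
    obtain ⟨x1, hx1, t1⟩ := hel k l1 a1
    obtain ⟨x2, hx2, t2⟩ := hel k l2 a2
    rcases hOUT V H C (B k) hlow hk (hc k) x1 ⟨h1 hx1, hnot k l1 x1 a1 hx1⟩ x2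
      ⟨h2 hx2, hnot k l2 x2 a2 hx2⟩ c ⟨hcC, hck⟩ t1 t2 hct with h | h | h
    · exact absurd (huniq x1 l1 l2 hx1 (h ▸ hx2)) h12
    · exact Or.inl (h ▸ hx1)
    · exact Or.inr (h ▸ hx2)
  -- two indices which are not free
  have hex : ∀ l, ∃ k, k ≠ l ∧ (u ∈ B k ∨ v ∈ B k) := by
    intro l
    by_contra hcon
    push Not at hcon
    have hf : ∀ k, k ≠ l → B k ⊆ C := fun k hk => hfree k (hcon k hk).1 (hcon k hk).2
    obtain ⟨k, l1, l2, l3, hk, h1, h2, h3, h12, h13, h23, a1, a2, a3⟩ := P1 l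
    exact hA k l1 l2 l3 (hf k hk) (hf l1 h1) (hf l2 h2) (hf l3 h3) h12 h13 h23 a1 a2 a3
  obtain ⟨l, m, hlm, hul, hvm⟩ : ∃ l m, l ≠ m ∧ u ∈ B l ∧ v ∈ B m := by
    obtain ⟨l0, hl0⟩ : ∃ l0 : κ, (u ∈ B l0 ∨ v ∈ B l0) := by
      by_contra hcon
      push Not at hcon
      obtain ⟨k, _, hk⟩ := hex i0
      exact hk.elim (hcon k).1 (hcon k).2
    obtain ⟨k, hk, hk'⟩ := hex l0
    rcases hl0 with h | h <;> rcases hk' with h' | h'
    · exact absurd (huniq u k l0 h' h) hk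
    · exact ⟨l0, k, hk.symm, h, h'⟩
    · exact ⟨k, l0, hk, h', h⟩
    · exact absurd (huniq v k l0 h' h) hk
  have hf : ∀ k, k ≠ l → k ≠ m → B k ⊆ C := fun k hk hk' =>
    hfree k (fun h => hk (huniq u k l h hul)) (fun h => hk' (huniq v k m h hvm))
  by_cases hadj : K.Adj l m
  · -- the union of the free branch sets is closed
    have hcl : C ⊆ {z | ∃ k, k ≠ l ∧ k ≠ m ∧ z ∈ B k} ∩ C := by
      apply hC.2 _ Set.inter_subset_right
      · obtain ⟨k, hk, hk'⟩ := P4 l m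
        obtain ⟨z, hz⟩ := (hc k).1
        exact ⟨z, ⟨k, hk, hk', hz⟩, hf k hk hk' hz⟩
      · rintro x ⟨⟨k, hk, hk', hx⟩, hxC⟩ y hy hxy
        refine ⟨?_, hy⟩
        by_cases hyk : y ∈ B k
        · exact ⟨k, hk, hk', hyk⟩
        · obtain ⟨l1, l2, h1, h2, h3, h4, h12, a1, a2⟩ := P3 l m hadj k hk hk'
          rcases hBB k l1 l2 (hf k hk hk') (hf l1 h1 h3) (hf l2 h2 h4) h12 a1 a2 y hy hyk
            ⟨x, hx, y, rfl, hxy⟩ with h | h
          · exact ⟨l1, h1, h3, h⟩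
          · exact ⟨l2, h2, h4, h⟩
    have hBl : B l ⊆ {u} := by
      intro z hz
      rcases hs l hz with h | h | h
      · obtain ⟨⟨k, hk, _, hzk⟩, _⟩ := hcl h
        exact absurd (huniq z k l hzk hz) hk
      · exact h
      · rw [Set.mem_singleton_iff] at h
        exact absurd (huniq v l m (h ▸ hz) hvm) hlm
    have hBm : B m ⊆ {v} := by
      intro z hz
      rcases hs m hz with h | h | h
      · obtain ⟨⟨k, _, hk, hzk⟩, _⟩ := hcl h
        exact absurd (huniq z k m hzk hz) hk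
      · exact absurd (huniq u l m hul (h ▸ hz)) hlm
      · exact h
    obtain ⟨x, hx, y, hy, hxy⟩ := ha l m hadj
    have e1 := hBl hx
    have e2 := hBm hy
    rw [Set.mem_singleton_iff] at e1 e2
    rw [e1, e2] at hxy
    exact huv hxy
  · obtain ⟨k, l1, l2, l3, hk, h1, h2, h3, hk', h1', h2', h3', h12, h13, h23, a1, a2, a3⟩ :=
      P2 l m hadj hlm
    exact hA k l1 l2 l3 (hf k hk hk') (hf l1 h1 h1') (hf l2 h2 h2') (hf l3 h3 h3') h12 h13 h23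
      a1 a2 a3

theorem gCYC (hOUT : Goals.OUT) : Goals.CYC := by
  intro V _ H C u v huv hu hv hC hlow
  refine ⟨?_, ?_⟩
  · rintro ⟨B, hB, hs⟩
    refine no_model hOUT huv hu hv hC hlow K5 ?_ ?_ ?_ ?_ 0 B hB hs
    · intro l
      refine ⟨l + 1, l + 2, l + 3, l + 4, ?_⟩
      simp only [K5, top_adj]
      revert l
      decide
    · intro l m h1 h2
      exact absurd h2 h1
    · intro l m h1 k h2 h3
      obtain ⟨l1, l2, h⟩ : ∃ l1 l2 : Fin 5, l1 ≠ l ∧ l2 ≠ l ∧ l1 ≠ m ∧ l2 ≠ m ∧ l1 ≠ l2 ∧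
          k ≠ l1 ∧ k ≠ l2 := by
        have key : ∀ l m : Fin 5, l ≠ m → ∀ k, k ≠ l → k ≠ m → ∃ l1 l2 : Fin 5, l1 ≠ l ∧
            l2 ≠ l ∧ l1 ≠ m ∧ l2 ≠ m ∧ l1 ≠ l2 ∧ k ≠ l1 ∧ k ≠ l2 := by decide
        exact key l m h1 k h2 h3
      exact ⟨l1, l2, h⟩
    · decide
  · rintro ⟨B, hB, hs⟩
    refine no_model hOUT huv hu hv hC hlow K33 ?_ ?_ ?_ ?_ (Sum.inl 0) B hB hs
    · rintro (i | i)
      · refine ⟨Sum.inl (i + 1), Sum.inr 0, Sum.inr 1, Sum.inr 2, ?_⟩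
        simp [K33, completeBipartiteGraph_adj]
      · refine ⟨Sum.inr (i + 1), Sum.inl 0, Sum.inl 1, Sum.inl 2, ?_⟩
        simp [K33, completeBipartiteGraph_adj]
    · have key : ∀ i j : Fin 3, i ≠ j → -(i + j) ≠ i ∧ -(i + j) ≠ j := by decide
      rintro (i | i) (j | j) h h'
      · have hij : i ≠ j := fun h'' => h' (by rw [h''])
        refine ⟨Sum.inl (-(i + j)), Sum.inr 0, Sum.inr 1, Sum.inr 2, ?_⟩
        have := key i j hij
        simp only [K33, completeBipartiteGraph_adj, ne_eq, Sum.inl.injEq, Sum.inr.injEq,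
          reduceCtorEq, not_false_eq_true, Sum.isLeft_inl, Sum.isRight_inr, and_true, true_and,
          Sum.isRight_inl, Sum.isLeft_inr, Bool.false_eq_true, and_false, or_false, false_and]
        exact ⟨this.1, this.2, by decide, by decide, by decide⟩
      · exact absurd (Or.inl ⟨rfl, rfl⟩) h
      · exact absurd (Or.inr ⟨rfl, rfl⟩) h
      · have hij : i ≠ j := fun h'' => h' (by rw [h''])
        refine ⟨Sum.inr (-(i + j)), Sum.inl 0, Sum.inl 1, Sum.inl 2, ?_⟩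
        have := key i j hij
        simp only [K33, completeBipartiteGraph_adj, ne_eq, Sum.inl.injEq, Sum.inr.injEq,
          reduceCtorEq, not_false_eq_true, Sum.isLeft_inl, Sum.isRight_inr, and_true, true_and,
          Sum.isRight_inl, Sum.isLeft_inr, Bool.false_eq_true, and_false, false_or, false_and,
          or_true]
        exact ⟨this.1, this.2, by decide, by decide, by decide⟩
    · have key : ∀ i : Fin 3, i + 1 ≠ i ∧ i + 2 ≠ i ∧ i + 1 ≠ i + 2 := by decide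
      rintro (i | i) (j | j) h (k | k) h1 h2
      · simp at h
      · simp at h
      · refine ⟨Sum.inr (j + 1), Sum.inr (j + 2), by simp, by simp, ?_, ?_, ?_, ?_, ?_⟩
        · exact fun h => (key j).1 (Sum.inr_injective h)
        · exact fun h => (key j).2.1 (Sum.inr_injective h)
        · exact fun h => (key j).2.2 (Sum.inr_injective h)
        · exact Or.inl ⟨rfl, rfl⟩
        · exact Or.inl ⟨rfl, rfl⟩
      · refine ⟨Sum.inl (i + 1), Sum.inl (i + 2), ?_, ?_, by simp, by simp, ?_, ?_, ?_⟩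
        · exact fun h => (key i).1 (Sum.inl_injective h)
        · exact fun h => (key i).2.1 (Sum.inl_injective h)
        · exact fun h => (key i).2.2 (Sum.inl_injective h)
        · exact Or.inr ⟨rfl, rfl⟩
        · exact Or.inr ⟨rfl, rfl⟩
      · refine ⟨Sum.inr (i + 1), Sum.inr (i + 2), ?_, ?_, by simp, by simp, ?_, ?_, ?_⟩
        · exact fun h => (key i).1 (Sum.inr_injective h)
        · exact fun h => (key i).2.1 (Sum.inr_injective h)
        · exact fun h => (key i).2.2 (Sum.inr_injective h)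
        · exact Or.inl ⟨rfl, rfl⟩
        · exact Or.inl ⟨rfl, rfl⟩
      · refine ⟨Sum.inl (j + 1), Sum.inl (j + 2), by simp, by simp, ?_, ?_, ?_, ?_, ?_⟩
        · exact fun h => (key j).1 (Sum.inl_injective h)
        · exact fun h => (key j).2.1 (Sum.inl_injective h)
        · exact fun h => (key j).2.2 (Sum.inl_injective h)
        · exact Or.inr ⟨rfl, rfl⟩
        · exact Or.inr ⟨rfl, rfl⟩
      · simp at h
      · simp at h
    · rintro (i | i) m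
      · rcases m with j | j
        · exact ⟨Sum.inr 0, by simp, by simp⟩
        · refine ⟨Sum.inl (i + 1), ?_, by simp⟩
          intro h
          exact (by decide : ∀ i : Fin 3, i + 1 ≠ i) i (Sum.inl_injective h)
      · rcases m with j | j
        · refine ⟨Sum.inr (i + 1), ?_, by simp⟩
          intro h
          exact (by decide : ∀ i : Fin 3, i + 1 ≠ i) i (Sum.inr_injective h)
        · exact ⟨Sum.inl 0, by simp, by simp⟩

end NApexGraphs.Fam.Helper68
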