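import Pool.Agent.Helper68.Dom.LEMD

/-!
# Project FAM (MP_18808e_co): definitions and basic facts

The graphs obtained from `K_(n+5)` and from `K_(3,3,1^n)` by nabla-Y moves are minor-minimal
non-`n`-apex (conjecture of Mattman and Pierce). Connectivity, `Pl`, `Touch`, `Low`, `HasK5`,
`HasK33` are those of project DOM.
-/

namespace NApexGraphs.Fam

open SimpleGraph NApexGraphs NApexGraphs.Dom

export NApexGraphs.Dom.Helper68 (addN)

variable {V : Type} {G G' : SimpleGraph V}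

/-- The graph obtained from `G` by replacing every triangle `T ∈ F` by a `Y`: the edges with both
ends in `T` are deleted and a new vertex adjacent to the points of `T` is added. -/
def YG (G : SimpleGraph V) (F : Finset (Finset V)) : SimpleGraph (V ⊕ {T // T ∈ F}) where
  Adj x y := match x, y with
    | Sum.inl a, Sum.inl b => G.Adj a b ∧ ∀ T ∈ F, ¬ (a ∈ T ∧ b ∈ T)
    | Sum.inl a, Sum.inr T => a ∈ T.1
    | Sum.inr T, Sum.inl b => b ∈ T.1
    | Sum.inr _, Sum.inr _ => False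
  symm := ⟨by
    rintro (a | T) (b | T') h
    · exact ⟨h.1.symm, fun T hT h' => h.2 T hT ⟨h'.2, h'.1⟩⟩
    · exact h
    · exact h
    · exact h⟩
  loopless := ⟨by
    rintro (a | T) h
    · exact h.1.ne rfl
    · exact h⟩

/-- `F` is a set of pairwise edge-disjoint triangles of `G` -/
structure Tri (G : SimpleGraph V) [DecidableEq V] (F : Finset (Finset V)) : Prop where
  card : ∀ T ∈ F, T.card = 3
  clique : ∀ T ∈ F, ∀ x ∈ T, ∀ y ∈ T, x ≠ y → G.Adj x y
  pair : ∀ T ∈ F, ∀ T' ∈ F, T ≠ T' → (T ∩ T').card ≤ 1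

/-- `G` without the edges inside the members of `D` -/
def BaseG (G : SimpleGraph V) (D : Set (Finset V)) : SimpleGraph V where
  Adj x y := G.Adj x y ∧ ∀ T ∈ D, ¬ (x ∈ T ∧ y ∈ T)
  symm := ⟨fun _ _ h => ⟨h.1.symm, fun T hT h' => h.2 T hT ⟨h'.2, h'.1⟩⟩⟩
  loopless := ⟨fun _ h => h.1.ne rfl⟩

/-- number of ordered pairs of adjacent vertices of `W`: twice the number of edges -/
noncomputable def eW (G : SimpleGraph V) (W : Finset V) : ℕ :=
  open Classical in ∑ v ∈ W, (W.filter (fun x => G.Adj v x)).card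

/-- number of common neighbours of `x` and `y` in `W` -/
noncomputable def comN (G : SimpleGraph V) (W : Finset V) (x y : V) : ℕ :=
  open Classical in (W.filter (fun z => G.Adj x z ∧ G.Adj y z)).card

/-- number of neighbours of `x` in `W` -/
noncomputable def degW (G : SimpleGraph V) (W : Finset V) (x : V) : ℕ :=
  open Classical in (W.filter (fun z => G.Adj x z)).card

/-- edges of `H` and pairs of different vertices with a common neighbour in `S` -/
def VG (H : SimpleGraph V) (S : Set V) : SimpleGraph V where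
  Adj p q := p ≠ q ∧ (H.Adj p q ∨ ∃ y ∈ S, H.Adj y p ∧ H.Adj y q)
  symm := ⟨fun p q h => ⟨h.1.symm, h.2.elim (fun h' => Or.inl h'.symm)
    fun ⟨y, hy, h1, h2⟩ => Or.inr ⟨y, hy, h2, h1⟩⟩⟩
  loopless := ⟨fun _ h => h.1 rfl⟩

/-- the configuration of POLE: two poles `u`, `v` (not adjacent, or equal), an equator `E` and a
set `S` of independent further vertices. -/
structure Pole (H : SimpleGraph V) (u v : V) (E S : Set V) : Prop where
  uv : ¬ H.Adj u v
  uE : u ∉ E
  vE : v ∉ E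
  uS : u ∉ S
  vS : v ∉ S
  dis : Disjoint E S
  ind : ∀ y ∈ S, ∀ y' ∈ S, ¬ H.Adj y y'
  pole : u ≠ v → ∀ y ∈ S, ¬ (H.Adj y u ∧ H.Adj y v)
  two : ∀ y ∈ S, Low H E y
  non : ∀ y ∈ S, ∀ p ∈ E, ∀ q ∈ E, p ≠ q → H.Adj y p → H.Adj y q → ¬ H.Adj p q
  uni : ∀ y ∈ S, ∀ y' ∈ S, ∀ p ∈ E, ∀ q ∈ E, p ≠ q → H.Adj y p → H.Adj y q → H.Adj y' p →
    H.Adj y' q → y = y'
  deg : ∀ p ∈ E, Low (VG H S) E p
  conn : Conn (VG H S) E

/-- `H` is, away from `X`, the graph `YG G F` modified such that the pair `u v` is missing (`H`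
arises from `YG G F` by the deletion or the contraction of an edge) -/
structure Keep (G : SimpleGraph V) (F : Finset (Finset V)) (H : SimpleGraph (V ⊕ {T // T ∈ F}))
    (X : Finset (V ⊕ {T // T ∈ F})) (u v : V) : Prop where
  yy : ∀ T T', ¬ H.Adj (Sum.inr T) (Sum.inr T')
  yp : ∀ T x, Sum.inr T ∉ X → Sum.inl x ∉ X → H.Adj (Sum.inr T) (Sum.inl x) → x ∈ T.1
  pp : ∀ x y, Sum.inl x ∉ X → Sum.inl y ∉ X → H.Adj (Sum.inl x) (Sum.inl y) →
    G.Adj x y ∧ ∀ T : {T // T ∈ F}, Sum.inr T ∉ X → ¬ (x ∈ T.1 ∧ y ∈ T.1)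
  uv : ¬ H.Adj (Sum.inl u) (Sum.inl v)
  yuv : u ≠ v → ∀ T, Sum.inr T ∉ X →
    ¬ (H.Adj (Sum.inr T) (Sum.inl u) ∧ H.Adj (Sum.inr T) (Sum.inl v))
  vir : ∀ x y, Sum.inl x ∉ X → Sum.inl y ∉ X → G.Adj x y → x ≠ u → x ≠ v → y ≠ u → y ≠ v →
    H.Adj (Sum.inl x) (Sum.inl y) ∨
      ∃ T, Sum.inr T ∉ X ∧ H.Adj (Sum.inr T) (Sum.inl x) ∧ H.Adj (Sum.inr T) (Sum.inl y)

/-- planarity inside `Z` only depends on the edges inside `Z` -/
theorem not_pl_congr {G1 G2 : SimpleGraph V} {Z : Set V}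
    (h : ∀ x ∈ Z, ∀ y ∈ Z, G1.Adj x y → G2.Adj x y) (h1 : ¬ Pl G1 Z) : ¬ Pl G2 Z := by
  have key : ∀ (κ : Type) (K : SimpleGraph κ) (B : κ → Set V), IsModel K G1 B →
      (∀ k, B k ⊆ Z) → IsModel K G2 B := by
    intro κ K B hB hs
    rw [isModel_iff] at hB ⊢
    refine ⟨fun k => (hB.1 k).mono fun a ha b hb hab => h a (hs k ha) b (hs k hb) hab,
      hB.2.1, ?_⟩
    intro k l hkl
    obtain ⟨a, ha, b, hb, hab⟩ := hB.2.2 k l hkl
    exact ⟨a, ha, b, hb, h a (hs k ha) b (hs l hb) hab⟩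
  intro h2
  apply h1
  refine ⟨?_, ?_⟩
  · rintro ⟨B, hB, hs⟩
    exact h2.1 ⟨B, key _ _ B hB hs, hs⟩
  · rintro ⟨B, hB, hs⟩
    exact h2.2 ⟨B, key _ _ B hB hs, hs⟩

/-- a model of the contracted graph lifts: if `v ~ w`, a model of `K` in `addN Q v w` (`v`
contracted into `w`) avoiding `v` gives a model of `K` in `Q`. -/
theorem lift_model {κ : Type} {K : SimpleGraph κ} {Q : SimpleGraph V} {v w : V}
    (hvw : Q.Adj v w) {B : κ → Set V} (hB : IsModel K (addN Q v w) B) (hvB : ∀ k, v ∉ B k) :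
    ∃ B' : κ → Set V, IsModel K Q B' ∧ ∀ k, B' k ⊆ B k ∪ {v} := by
  classical
  rw [isModel_iff] at hB
  obtain ⟨hc, hd, ha⟩ := hB
  let B' : κ → Set V := fun k => if w ∈ B k then B k ∪ {v} else B k
  have hsub : ∀ k, B k ⊆ B' k := by
    intro k
    simp only [B']
    split_ifs
    · exact Set.subset_union_left
    · exact Set.Subset.rfl
  have hmem : ∀ k z, z ∈ B' k → z ∈ B k ∨ (z = v ∧ w ∈ B k) := by
    intro k z hz
    simp only [B'] at hz
    split_ifs at hz with h1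
    · rcases hz with hz | hz
      · exact Or.inl hz
      · exact Or.inr ⟨hz, h1⟩
    · exact Or.inl hz
  refine ⟨B', ?_, fun k z hz => (hmem k z hz).elim Or.inl fun h => Or.inr h.1⟩
  rw [isModel_iff]
  refine ⟨?_, ?_, ?_⟩
  · intro k
    by_cases h1 : w ∈ B k
    · have e1 : B' k = B k ∪ {v} := by simp only [B', if_pos h1]
      rw [e1]
      refine ⟨⟨v, Or.inr rfl⟩, ?_⟩
      intro A hA hne hcl
      have hvA : v ∈ A ↔ w ∈ A := by
        constructor
        · intro h; exact hcl v h w (Or.inl h1) hvw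
        · intro h; exact hcl w h v (Or.inr rfl) hvw.symm
      have hcl' : ∀ x ∈ A ∩ B k, ∀ y ∈ B k, (addN Q v w).Adj x y → y ∈ A ∩ B k := by
        rintro x ⟨hxA, hxB⟩ y hy hxy
        refine ⟨?_, hy⟩
        rcases hxy with h | ⟨h1', h2, h3⟩ | ⟨h1', h2, h3⟩
        · exact hcl x hxA y (Or.inl hy) h
        · subst h1'
          exact hcl v (hvA.2 hxA) y (Or.inl hy) h3
        · subst h1'
          exact hvA.1 (hcl x hxA v (Or.inr rfl) h3.symm)
      have hne' : (A ∩ B k).Nonempty := by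
        obtain ⟨z, hz⟩ := hne
        rcases hA hz with h | h
        · exact ⟨z, hz, h⟩
        · rw [Set.mem_singleton_iff] at h
          subst h
          exact ⟨w, hvA.1 hz, h1⟩
      have hall : B k ⊆ A ∩ B k := (hc k).2 _ Set.inter_subset_right hne' hcl'
      rintro z (hz | hz)
      · exact (hall hz).1
      · rw [Set.mem_singleton_iff] at hz
        subst hz
        exact hvA.2 (hall h1).1
    · have e1 : B' k = B k := by simp only [B', if_neg h1]
      rw [e1]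
      refine (hc k).mono ?_
      intro x hx y hy hxy
      rcases hxy with h | ⟨h1', h2, h3⟩ | ⟨h1', h2, h3⟩
      · exact h
      · subst h1'; exact absurd hx h1
      · subst h1'; exact absurd hy h1
  · intro k l hkl
    rw [Set.disjoint_left]
    intro z hz hz'
    rcases hmem k z hz with h | ⟨h, hw⟩ <;> rcases hmem l z hz' with h' | ⟨h', hw'⟩
    · exact Set.disjoint_left.1 (hd k l hkl) h h'
    · subst h'; exact hvB k h
    · subst h; exact hvB l h'
    · exact Set.disjoint_left.1 (hd k l hkl) hw hw'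
  · intro k l hkl
    obtain ⟨x, hx, y, hy, hxy⟩ := ha k l hkl
    rcases hxy with h | ⟨h1', h2, h3⟩ | ⟨h1', h2, h3⟩
    · exact ⟨x, hsub k hx, y, hsub l hy, h⟩
    · subst h1'
      refine ⟨v, ?_, y, hsub l hy, h3⟩
      simp only [B', if_pos hx]
      exact Or.inr rfl
    · subst h1'
      refine ⟨x, hsub k hx, v, ?_, h3.symm⟩
      simp only [B', if_pos hy]
      exact Or.inr rfl

/-- `K₅` lifts through a contraction -/
theorem HasK5.lift {Q : SimpleGraph V} {v w : V} (hvw : Q.Adj v w) {W : Set V} (hv : v ∈ W)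
    (h : HasK5 (addN Q v w) (W \ {v})) : HasK5 Q W := by
  obtain ⟨B, hB, hs⟩ := h
  obtain ⟨B', hB', hs'⟩ := lift_model hvw hB fun k hk => (hs k hk).2 rfl
  refine ⟨B', hB', fun k z hz => ?_⟩
  rcases hs' k hz with h | h
  · exact (hs k h).1
  · rw [Set.mem_singleton_iff] at h
    rw [h]; exact hv

end NApexGraphs.Fam
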