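import Pool.Agent.Helper30.Fam.TWO1
import Pool.Agent.Helper68.Fam.CYC
import Pool.Agent.Helper45.Fam.DOWN
import Pool.Agent.Helper68.Fam.Assemble

/-!
# Project FAM: final statements
-/

namespace NApexGraphs.Fam.Helper68

open SimpleGraph NApexGraphs NApexGraphs.Dom NApexGraphs.Fam

theorem final : Goals.MIN1 ∧ Goals.MIN2 ∧ Goals.CLOSE :=
  assemble (Helper30.gTWO1 Helper13.gNORM2) gCYC Helper45.gDOWN

end NApexGraphs.Fam.Helper68
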