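import Pool.Agent.Helper68.Fam.Defs

/-!
# Project FAM (MP_18808e_co): goals

Theorem: for all `n ≥ 1` and every set `F` of pairwise edge-disjoint triangles of `K_(n+5)` or of
`K331 n` the graph `YG G F` is minor-minimal non-`n`-apex.

Every goal is a `Prop`; deliver `theorem gNAME : Goals.NAME` (with earlier goals as hypotheses
where the docstring says so) in `Pool/Agent/<Seat>/Fam/NAME.lean`, namespace
`NApexGraphs.Fam.<Seat>`.

Tools: `Conn` closed-set connectivity with `Conn.exists_edge`, `Conn.subset_of_closed`,
`Conn.mono`, `Conn.union` (Helper58/Apex/Basic), `isModel_iff`, `card_meet_le`, `meet_unique`,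
`meet_all`, `hasK5_sets`, `hasK33_sets`, `Pl.mono`, `pl_iff` (Helper68/Dom/Defs), `not_pl_congr`,
`HasK5.lift`, `lift_model`, `addN` (Helper68/Fam/Defs).
-/

namespace NApexGraphs.Fam.Goals

open SimpleGraph NApexGraphs NApexGraphs.Dom NApexGraphs.Fam

/-! ## Part 1: the nabla-Y move keeps non-planarity -/

/-- **DY**. `G2` arises from `G1` by a nabla-Y move on the (possibly partial) triangle `N`, with
new vertex `y`. If `G1` is not planar in `Z` then neither is `G2`.

Proof. Let `B` be a model of `K` (`K5` or `K33`) of `G1` in `Z`. `y` is in no branch set: `B k = {y}`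
is impossible since `k` has a neighbour in `K` but `y` has no `G1`-neighbour in `Z`, and `y ∈ B k`,
`B k ≠ {y}` contradicts connectivity.
(CENTRE) Suppose `k0` is an index with `B k0 ∩ N ≠ ∅` and for all different `x, x' ∈ N` with
`x ∈ B i`, `x' ∈ B j`, (`i = j` or `i ~ j` in `K`) we have `i = k0` or `j = k0`. Then
`B' = Function.update B k0 (B k0 ∪ {y})` is a model of `K` of `G2` in `Z`. Indeed for `i ≠ k0` no
`G1`-edge inside `B i` has both ends in `N`, so they are `G2`-edges and `B i` is connected. `B k0 ∪ {y}`
is connected: let `A` be a nonempty subset of it which is closed under `G2`-neighbours in it. If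
`y ∈ A`, then `A` contains `N ∩ B k0 ≠ ∅`, and `A ∩ B k0` is `G1`-closed in `B k0` (a `G1`-edge is a
`G2`-edge or has both ends in `N`). If `y ∉ A` then `A ∩ N = ∅`, so all `G1`-edges at `A` are
`G2`-edges, `A ⊆ B k0` is `G1`-closed, `A = B k0`, contradiction to `B k0 ∩ N ≠ ∅`. For `i ~ j` the
edge between `B i` and `B j` is a `G2`-edge or has both ends in `N`, then `i = k0` or `j = k0`, and it
is replaced by an edge at `y`.
Now `N ⊆ {a, b, c}`. If two different elements of `N` are in the same branch set `B k`, take
`k0 = k` (at most one element of `N` is elsewhere). Otherwise the elements of `N` which are in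
branch sets are in different ones. None: `B` is a model of `G2` (all edges which are used are
`G2`-edges). One or two: `k0` the index of one of them. Three, `a ∈ B i`, `b ∈ B j`, `c ∈ B k`: for
`K = K33` two of `i, j, k` are on the same side; let `k0` be the third one (the two others are not
adjacent). For `K = K5` let `l, m` be the two other indices: `{B i, B j, B k}` versus `{B l, B m, {y}}`
is a `K33` of `G2` (`B l`, `B m` contain no element of `N`). -/
def DY : Prop :=
  ∀ (V : Type) (G1 G2 : SimpleGraph V) (Z N : Set V) (y a b c : V), y ∈ Z → y ∉ N → N ⊆ Z →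
    N ⊆ {a, b, c} → (∀ z ∈ N, G2.Adj y z) → (∀ z ∈ Z, ¬ G1.Adj y z) →
    (∀ x ∈ Z, ∀ z ∈ Z, G1.Adj x z → G2.Adj x z ∨ (x ∈ N ∧ z ∈ N)) → ¬ Pl G1 Z → ¬ Pl G2 Z

/-- **TRANSFER**. (Hypothesis: DY.) After the deletion of `X` the graph `YG G F` is not planar if `G`
without the pairs covered by the deleted `Y`s is not planar on the remaining points.

Proof. Let `D` be the set of deleted triples (`inr T ∈ X`) and `Act` the finset of the other ones
(in the subtype). For `A ⊆ Act` let `G_A` be the graph on `V ⊕ F`: `inl x ~ inl y` iff `G.Adj x y` and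
no `T` in `D` or in `A` contains `x` and `y`; `inl x ~ inr T` iff `x ∈ T` and `T ∈ A`. By induction on
`A`, `G_A` is not planar in the complement of `X`. `A = ∅`: a model `B` of `BaseG ..` gives the model
`Sum.inl '' B k`. Step, `A ∪ {T}`: DY with `y = inr T`, `N = {inl x | x ∈ T, inl x ∉ X}`, `G1 = G_A`
(`inr T` has no neighbours), `G2 = G_(A ∪ {T})`; `T ⊆ {a, b, c}` since `T.card ≤ 3`. For `A = Act` every
edge of `G_A` inside the complement of `X` is an edge of `YG G F`, `not_pl_congr`. -/
def TRANSFER : Prop :=
  ∀ (V : Type) [Finite V] [DecidableEq V] (G : SimpleGraph V) (F : Finset (Finset V))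
    (X : Finset (V ⊕ {T // T ∈ F})), (∀ T ∈ F, T.card ≤ 3) →
    ¬ Pl (BaseG G {T | ∃ h : T ∈ F, Sum.inr ⟨T, h⟩ ∈ X}) {v | Sum.inl v ∉ X} →
    ¬ Pl (YG G F) ((X : Set (V ⊕ {T // T ∈ F}))ᶜ)

/-! ## Part 2: dense graphs contain `K₅` (Mader) -/

/-- **ECON**. Contraction of the edge `x y` (`x` into `y`) loses `1 + c` edges, `c` the number of
common neighbours; deletion of `x` loses `degW G W x` edges.

Proof. Count ordered pairs. The neighbours of `y` in `W.erase x` with respect to `addN G x y` are
`(N(x) ∪ N(y)) \ {x, y}`, that is `(deg y - 1) + (deg x - 1) - c` many; for the other `z` of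
`W.erase x` the number of neighbours changes only if `z ~ x`: `z` loses `x` and gains `y` if `z` is not
adjacent to `y`. (Or: the ordered pairs of `addN G x y` inside `W.erase x` are those of `G` plus the
pairs `(y, z)`, `(z, y)` for `z ∈ W`, `z ~ x`, `z ≠ y`, `z` not adjacent to `y`.) -/
def ECON : Prop :=
  ∀ (V : Type) [Finite V] [DecidableEq V] (G : SimpleGraph V) (W : Finset V) (x y : V), x ∈ W →
    (eW G W = eW G (W.erase x) + 2 * degW G W x) ∧
    (y ∈ W → G.Adj x y → eW G W = eW (addN G x y) (W.erase x) + 2 + 2 * comN G W x y)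

/-- **MADER**: at least `3 |W| - 5` edges and `|W| ≥ 3` imply a `K5` minor. (Hypothesis: ECON.)

Proof. Induction on `W.card + eW G W`, for all `G` and `W`. If `W.card ≤ 4` the number of ordered
pairs of different elements is less than `6 |W| - 10`. Let `W.card ≥ 5`. If some `x ∈ W` has at most
three neighbours in `W`: induction for `W.erase x` (ECON). If some edge `x y` in `W` has at most two
common neighbours in `W`: induction for `addN G x y`, `W.erase x`, and `HasK5.lift`. If
`6 |W| - 8 ≤ eW G W` delete an edge inside `W` (`G.deleteEdges {s(x, y)}`, `eW` drops by two):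
induction. So `eW G W < 6 |W|`, and some `v ∈ W` has at most five neighbours in `W`. Every neighbour of `v` is adjacent to at least
three neighbours of `v`. If `v` has four neighbours they are pairwise adjacent and with `v` they form
`K5`. If `v` has five neighbours: some `c` of them is adjacent to the four others (otherwise the
five vertices have exactly three neighbours each among them, and `15` is odd), and the non-edges among
the other four vertices are disjoint (every vertex has at most one non-neighbour), so the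
four are `p, p', q, q'` with all of `pq, pq', p'q, p'q'` edges; the branch sets
`{v}, {c}, {p, q}, {p'}, {q'}` form a `K5` (`p' ~ q'`, `q ~ p'`, `p ~ q'`). -/
def MADER : Prop :=
  ∀ (V : Type) [Finite V] [DecidableEq V] (G : SimpleGraph V) (W : Finset V), 3 ≤ W.card →
    6 * W.card ≤ eW G W + 10 → HasK5 G (W : Set V)

/-- **ECOUNT**. All pairs of different elements of `P` not contained in a member of `C` are
adjacent; members of `C` have at most three elements, so each of them contains at most six ordered
pairs of different elements.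

Proof. The ordered pairs of different elements of `P` (`P.card * (P.card - 1)` many,
`Finset.offDiag`) are adjacent or contained in the union of the `T.offDiag`, `T ∈ C`
(`Finset.card_biUnion_le`); the adjacent ones are counted by `eW`. -/
def ECOUNT : Prop :=
  ∀ (V : Type) [DecidableEq V] (G : SimpleGraph V) (P : Finset V) (C : Finset (Finset V)),
    (∀ T ∈ C, T.card ≤ 3) →
    (∀ x ∈ P, ∀ y ∈ P, x ≠ y → (∀ T ∈ C, ¬ (x ∈ T ∧ y ∈ T)) → G.Adj x y) →
    P.card * (P.card - 1) ≤ eW G P + 6 * C.card

/-! ## Part 3: complete graphs minus few triples are not planar -/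

/-- **BASE1**. (Hypotheses: MADER, ECOUNT.) A complete graph on at least `s + 5` points, minus the
pairs covered by `s` triples which pairwise share at most one point, is not planar.

Proof. Replace `P` by a subset with exactly `s + 5` elements. `s = 0`: five singletons, `K5`. `s ≥ 3`:
ECOUNT and MADER: `(s+5)(s+4) - 6 s + 10 ≥ 6 (s+5)` since `s² ≥ 3 s`. `s = 1`, `𝒮 = {T}`: choose
`A ⊆ P` with `T ∩ P ⊆ A`, `|A| = 3`; `A` versus `P \ A` is a `K33` (singletons). `s = 2`,
`𝒮 = {T1, T2}`: let `Q = P \ (T1 ∩ T2)`. `T1 ∩ Q` and `T2 ∩ Q` are disjoint and `|Q \ T2| ≥ 3` (if `T1`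
and `T2` have a common point in `P`, `|Q| = 6` and `|T2 ∩ Q| ≤ 2`; otherwise `|Q| = 7`,
`|T2 ∩ Q| ≤ 3`); choose `A` with `T1 ∩ Q ⊆ A ⊆ Q \ T2`, `|A| = 3`, and `B` with
`T2 ∩ Q ⊆ B ⊆ Q \ A`, `|B| = 3`; `A` versus `B` is a `K33`. -/
def BASE1 : Prop :=
  ∀ (V : Type) [Finite V] [DecidableEq V] (H : SimpleGraph V) (P : Finset V)
    (S : Finset (Finset V)), (∀ T ∈ S, T.card ≤ 3) →
    (∀ T ∈ S, ∀ T' ∈ S, T ≠ T' → (T ∩ T').card ≤ 1) → S.card + 5 ≤ P.card →
    (∀ x ∈ P, ∀ y ∈ P, x ≠ y → (∀ T ∈ S, ¬ (x ∈ T ∧ y ∈ T)) → H.Adj x y) → ¬ Pl H (P : Set V)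

/-- `P` are at least `s + 6` points, all pairs of different points not both in `A`, not both in `B`,
and not both in a member of `S` are adjacent. -/
structure Two {V : Type} [DecidableEq V] (H : SimpleGraph V) (P A B : Finset V)
    (S : Finset (Finset V)) : Prop where
  cA : A.card ≤ 3
  cB : B.card ≤ 3
  dis : Disjoint A B
  cT : ∀ T ∈ S, T.card ≤ 3
  pair : ∀ T ∈ S, ∀ T' ∈ S, T ≠ T' → (T ∩ T').card ≤ 1
  card : S.card + 6 ≤ P.card
  adj : ∀ x ∈ P, ∀ y ∈ P, x ≠ y → ¬ (x ∈ A ∧ y ∈ A) → ¬ (x ∈ B ∧ y ∈ B) →
    (∀ T ∈ S, ¬ (x ∈ T ∧ y ∈ T)) → H.Adj x y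

/-- **NORM2**. It is enough to treat `P.card = S.card + 6`, `A, B ⊆ P` with exactly three elements.

Proof. `P' ⊆ P` with exactly `S.card + 6` elements; `A'` with `A ∩ P' ⊆ A' ⊆ P' \ B`, `|A'| = 3`
(`|P' \ B| ≥ 3`), `B'` with `B ∩ P' ⊆ B' ⊆ P' \ A'`, `|B'| = 3`. `Pl.mono`. -/
def NORM2 : Prop :=
  ∀ (V : Type) [DecidableEq V] (H : SimpleGraph V) (P A B : Finset V) (S : Finset (Finset V)),
    Two H P A B S → ∃ P' A' B' : Finset V, Two H P' A' B' S ∧ P' ⊆ P ∧ P'.card = S.card + 6 ∧
      A' ⊆ P' ∧ B' ⊆ P' ∧ A'.card = 3 ∧ B'.card = 3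

/-- **KILL**. If a triple `T ∈ S` has at most two points in `P`, or two different points in `A`, or
two different points in `B`, then one can delete a point `z` and the triple `T`.

Proof. `z` = one of the (at most two) points of `T` in `P` (any point of `P` if there is none); in the
second case `z` = the element of `T` different from the two points of `A`, if it exists and is in
`P`, otherwise any point of `P`; then all pairs of `T` in `P.erase z` are inside `A`. The same for
`B`. `P` is not empty. -/
def KILL : Prop :=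
  ∀ (V : Type) [DecidableEq V] (H : SimpleGraph V) (P A B : Finset V) (S : Finset (Finset V)),
    Two H P A B S → ∀ T ∈ S, ((T ∩ P).card ≤ 2 ∨ 2 ≤ (T ∩ A).card ∨ 2 ≤ (T ∩ B).card) →
    ∃ z ∈ P, Two H (P.erase z) A B (S.erase T)

/-- **TWO1**: at most one triple. (Hypothesis: NORM2.)

Proof. By NORM2 `P = A ∪ B` (no triple) or `P = A ∪ B ∪ {w}`, `S = {T}`. If no `a ∈ A` and `b ∈ B` are
both in `T` (in particular if there is no triple), `A` versus `B` is a `K33` (singletons). Let
`a ∈ A ∩ T`, `b ∈ B ∩ T`. If `w ∉ T` and `T ∩ B = {b}`: `A` versus `(B \ {b}) ∪ {w}`. If `w ∉ T` and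
`T ∩ A = {a}`: `(A \ {a}) ∪ {w}` versus `B`. (One of the two holds, `T.card ≤ 3`.) If `w ∈ T`, then
`T = {a, b, w}`; with `A = {a, a', a''}`, `B = {b, b', b''}` the branch sets
`{a', b}, {a''}, {b', a}, {b''}, {w}` form a `K5` (`b ~ a', a''`; `a ~ b', b''`; `w ~ a', a'', b', b''`). -/
def TWO1 : Prop :=
  ∀ (V : Type) [DecidableEq V] (H : SimpleGraph V) (P A B : Finset V) (S : Finset (Finset V)),
    Two H P A B S → S.card ≤ 1 → ¬ Pl H (P : Set V)

/-- **TWO2**: two triples. (Hypotheses: NORM2, KILL, TWO1.)

Proof. By NORM2 `P = A ∪ B ∪ {w1, w2}`, `S = {T1, T2}`. By KILL and TWO1 we may assume that `T1`, `T2`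
have three points in `P`, at most one in `A`, at most one in `B`; so each is of the form
`{a, b, w}`, `{a, w1, w2}` or `{b, w1, w2}`. They are not both of the last two forms.
(i) `T1 = {a1, w1, w2}`, `T2 = {a2, b1, w1}` (up to names; `a1 ≠ a2` since `|T1 ∩ T2| ≤ 1`),
`A = {a1, a2, a3}`, `B = {b1, b2, b3}`: `K33` `{a1}, {a2}, {a3}` versus `{b2}, {b3}, {b1, w2}`
(`b1 ~ w2`, `a1 ~ b1`, `a2 ~ w2`, `a3 ~ b1`). (i') the same with `A` and `B` exchanged.
(ii) `T1 = {a1, b1, w}`, `T2 = {a2, b2, w}` with the same `w`, so `a1 ≠ a2`, `b1 ≠ b2`; `w'` the other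
one: `{a3}, {b3}, {w'}` versus `{w}, {b1, a2}, {b2, a1}`.
(iii) `T1 = {a1, b1, w1}`, `T2 = {a1, b2, w2}`, `b1 ≠ b2`: `{b1}, {b2}, {b3}` versus
`{a2}, {a3}, {w1, w2}`. (iii') `T1 = {a1, b1, w1}`, `T2 = {a2, b1, w2}`: exchanged roles.
(iv) `T1 = {a1, b1, w1}`, `T2 = {a2, b2, w2}`, all different: `{a3}, {b3}, {w1}` versus
`{w2}, {b1, a2}, {b2, a1}`. (To exploit the symmetry prove the lemma for `A`, `B` and use that `Two` is
symmetric in `A`, `B`.) -/
def TWO2 : Prop :=
  ∀ (V : Type) [DecidableEq V] (H : SimpleGraph V) (P A B : Finset V) (S : Finset (Finset V)),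
    Two H P A B S → S.card = 2 → ¬ Pl H (P : Set V)

/-- **TWO3**: three triples. (Hypotheses: NORM2, KILL, TWO2, ECON, ECOUNT, MADER.)

Proof. By NORM2 `P = A ∪ B ∪ W`, `|W| = 3`, `S = {T1, T2, T3}`. By KILL and TWO2 we may assume that
the `Ti` have three points in `P`, at most one in `A`, at most one in `B`. We may replace `H` by the
graph `H0` in which `x ~ y` iff `x ≠ y` and no member of `C = {A, B, T1, T2, T3}` contains both
(a `K5` of `H0` in `P` is one of `H`, `not_pl_congr`). By ECOUNT `72 ≤ eW H0 P + 30`. It is enough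
(ECON, MADER for eight points, `48 ≤ 38 + 10`) to find a point of `P` with at most two neighbours in
`P`, or an edge `x y` in `P` with at most one common neighbour in `P` (`HasK5.lift`).
(1) Some point is in three members of `C`: these three members pairwise share only this point
(`|Ti ∩ A| ≤ 1`, `|Ti ∩ B| ≤ 1`, `|Ti ∩ Tj| ≤ 1`, `A`, `B` disjoint), so it has six non-neighbours in
`P`, and two neighbours. (2) Some `Ti = {a, w, w'}` with `a ∈ A`, `w ≠ w' ∈ W`: let `b ∈ B`; `a ~ b`
(by (1) we may assume that `a` is in no other `Tj`); a common neighbour is not in `A`, not in `B`, not `w`, `w'`, so it is the third element of `W`. The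
same for `{b, w, w'}`. (3) If `Ti = {a, b, w}`, `Tj = {a', b', w'}`, `i ≠ j`, `w ≠ w' ∈ W`: by (1) we may
assume that `a` is in no `Tk` but `Ti` (otherwise it is in three members of `C`), in particular
`a ≠ a'`, and in the same way `b ≠ b'`; then `a ~ b'` and a common neighbour
is not in `A`, `B`, not `w`, `w'`, so it is the third element of `W`. (4) Otherwise all `Ti` which meet
`A` and `B` have the form `{a, b, w}` with the same `w`, the others are equal to `W`, and at most one
`Ti` equals `W`; so `w` is in `T1, T2, T3`: (1). -/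
def TWO3 : Prop :=
  ∀ (V : Type) [Finite V] [DecidableEq V] (H : SimpleGraph V) (P A B : Finset V)
    (S : Finset (Finset V)), Two H P A B S → S.card = 3 → ¬ Pl H (P : Set V)

/-- **BASE2**. (Hypotheses: NORM2, TWO1, TWO2, TWO3, MADER, ECOUNT.)

Proof. `S.card ≤ 3`: TWO1, TWO2, TWO3. `s = S.card ≥ 4`: take `P' ⊆ P` with exactly `s + 6` elements (or
NORM2); ECOUNT with `C = insert A (insert B S)`, which has at most `s + 2` elements:
`(s+6)(s+5) ≤ eW + 6 (s+2)`, and `(s+6)(s+5) - 6 (s+2) + 10 ≥ 6 (s+6)` since `s² ≥ s + 8`; MADER. -/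
def BASE2 : Prop :=
  ∀ (V : Type) [Finite V] [DecidableEq V] (H : SimpleGraph V) (P A B : Finset V)
    (S : Finset (Finset V)), Two H P A B S → ¬ Pl H (P : Set V)

/-! ## Part 4: planar graphs -/

/-- **RED**. Independent vertices with at most two neighbours can be suppressed. `H'` contains all
edges of `H` outside of `R` and an edge between any two neighbours of an element of `R`.

Proof. Let `B` be a model of `K` (`K5` or `K33`) of `H` in `Z`. Every vertex `k` of `K` has three
different neighbours; the branch sets of these are disjoint, so `B k ≠ {r}` for `r ∈ R` (`r` would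
have three different neighbours in `Z`). `B k` is not contained in `R`: it would be connected and
independent, so a singleton. `B k \ R` is connected for `H'`: let `A ⊆ B k \ R` be nonempty and
closed under `H'`-neighbours in `B k \ R`; `A⁺ = A ∪ {r ∈ R ∩ B k | r has an H-neighbour in A}` is
closed under `H`-neighbours in `B k`: from `r` with a neighbour `a ∈ A` to `x' ∈ B k`: `x' ∉ R` by
independence, and `x' = a` or `a ~ x'` in `H'`. So `A⁺ = B k`. If `k ~ l` in `K`, `x ∈ B k`, `x' ∈ B l`,
`x ~ x'`: if `x, x' ∉ R` fine; if `x ∈ R`, then `x' ∉ R`, and since `B k ≠ {x}` there is a neighbour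
`z ∈ B k` of `x`, `z ∉ R`, `z ≠ x'`, so `z ~ x'` in `H'`; the same if `x' ∈ R`. So the sets `B k \ R` form
a model of `K` of `H'` in `Z \ R`. -/
def RED : Prop :=
  ∀ (V : Type) (H H' : SimpleGraph V) (Z R : Set V), R ⊆ Z →
    (∀ r ∈ R, ∀ r' ∈ R, ¬ H.Adj r r') → (∀ r ∈ R, Low H Z r) →
    (∀ a ∈ Z \ R, ∀ b ∈ Z \ R, H.Adj a b → H'.Adj a b) →
    (∀ r ∈ R, ∀ a ∈ Z, ∀ b ∈ Z, a ≠ b → H.Adj r a → H.Adj r b → H'.Adj a b) →
    Pl H' (Z \ R) → Pl H Z

/-- **OUT**. In a graph with all degrees at most two a connected set has at most two outer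
neighbours.

Proof. Induction on the number of elements of `D`. If `D = {d}` use `Low H C d`. Otherwise take a
maximal connected proper subset `D'` of `D` (finite, `Set.Finite.exists_maximal`; singletons are
connected); there is `x ∈ D \ D'` adjacent to an element `d` of `D'`; `D' ∪ {x}` is connected, so it
is `D`. Suppose `a, b, c` are different. Each is adjacent to an element of `D'` or to `x`. By
pigeonhole two of them, say `a`, `b`, are both adjacent to elements of `D'` (then `a, b, x` are three
different outer neighbours of `D'`, contradiction to the induction hypothesis), or both adjacent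
to `x` (then `a, b, d` are three different neighbours of `x`, contradiction to `Low`). -/
def OUT : Prop :=
  ∀ (V : Type) [Finite V] (H : SimpleGraph V) (C D : Set V), (∀ x ∈ C, Low H C x) → D ⊆ C →
    Conn H D → ∀ a ∈ C \ D, ∀ b ∈ C \ D, ∀ c ∈ C \ D, Touch H D {a} → Touch H D {b} →
    Touch H D {c} → a = b ∨ a = c ∨ b = c

/-- **CYC**. A connected graph `C` with all degrees at most two and two further non-adjacent (or
equal) vertices: planar. (Hypothesis: OUT.)

Proof. Let `B` be a model of `K` in `C ∪ {u, v}`. An index `k` is free if `B k` contains neither `u` nor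
`v`; then `B k ⊆ C`. At most two indices are not free. (*) If `k` is free and `l ≠ l'` are free
indices adjacent to `k` in `K`, then every neighbour `c ∈ C \ B k` of `B k` is in `B l` or in `B l'` (OUT
with an element of `B l`, an element of `B l'` and `c`). In particular `k` has at most two free
neighbours in `K`. `K5`: if there are at least four free indices one of them has three free
neighbours. So there are exactly three free indices, `u ∈ B l`, `v ∈ B m`, `l ≠ m`. By (*) the union
of the three free branch sets is closed under neighbours in `C`; `C` is connected, so it is `C`, so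
`B l = {u}`, `B m = {v}`, and `u ~ v`, contradiction. `K33`: if all non-free indices are on one side
(or there are none), then a free index on this side (it exists, since there are at most two
non-free ones) has three free neighbours, contradiction. So there are one non-free index on each
side, `l` and `m`, `u ∈ B l`, `v ∈ B m` (or exchanged). Each of the four free indices has two free
neighbours; by (*) the union of the four free branch sets is closed in `C`, hence is `C`, so
`B l = {u}`, `B m = {v}` (or exchanged), `l ~ m`, so `u ~ v`, contradiction. -/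
def CYC : Prop :=
  ∀ (V : Type) [Finite V] (H : SimpleGraph V) (C : Set V) (u v : V), ¬ H.Adj u v → u ∉ C →
    v ∉ C → Conn H C → (∀ x ∈ C, Low H C x) → Pl H (C ∪ {u, v})

/-- **POLE**. (Hypotheses: RED, CYC.)

Proof. `Z = {u, v} ∪ E ∪ S`. Let `S1` be the set of the `y ∈ S` with `Low H Z y` (at most two
neighbours in `Z`) and `S2 = S \ S1`. A `y ∈ S2` has three different neighbours in `Z`, none of them in
`S`, at most two in `E`, and not both `u` and `v` (if `u = v` this is one vertex), so it has exactly
two neighbours in `E`. Let `H' = ` `VG H S1` (edges of `H` and pairs of different neighbours of an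
element of `S1`), `C = E ∪ S2`. RED with `R = S1`: it is enough that `H'` is planar in
`Z \ S1 = C ∪ {u, v}`. This follows from CYC:
`u`, `v` are not adjacent in `H'` by `uv` and `pole`. `Low H' C y` for `y ∈ S2`: the neighbours of `y` in
`C` are in `E` and adjacent in `H` (nothing in `S1` is adjacent to `y`), `two`. `Low H' C p` for
`p ∈ E`: to a neighbour `c ∈ C` of `p` associate `q(c) ∈ E`: `q(c) = c` if `c ∈ E`, and the other
neighbour in `E` of `c` if `c ∈ S2`. `p`, `q(c)` are adjacent in `VG H S`. If `q(c) = q(c')` then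
`c = c'`: if `c = q ∈ E`, `c' ∈ S2`, then `p ~ q` in `H` contradicts `non`, and `p, q ~ y1 ∈ S1`
contradicts `uni` (`y1 ≠ c'`); if `c, c' ∈ S2` use `uni`. So three different neighbours give three
different `q`s, contradiction to `deg`. `Conn H' C`: let `A ⊆ C` be nonempty and closed; `A ∩ E` is
nonempty (an element of `S2` has a neighbour in `E`) and closed for `VG H S` in `E`: `p ∈ A`,
`p ~ q` by `H` or by `y ∈ S1`: `p ~ q` in `H'`; by `y ∈ S2`: `y ∈ A`, then `q ∈ A`. So `E ⊆ A`, and each
`y ∈ S2` has a neighbour in `E`. -/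
def POLE : Prop :=
  ∀ (V : Type) [Finite V] (H : SimpleGraph V) (u v : V) (E S : Set V), Pole H u v E S →
    Pl H (E ∪ S ∪ {u, v})

/-- **PLANE**. (Hypothesis: POLE.) The remaining points are `u`, `v` and those of `E`.

Proof. POLE for `inl u`, `inl v`, `Sum.inl '' E`, and `S` = the `inr T` which are not in `X`; the
complement of `X` is contained in the union (`Pl.mono`). `two`: a neighbour of `inr T` in
`inl '' E` is `inl x`, `x ∈ T ∩ E` (`yp`). `non`: `pp` with `yp`. `uni`: `x ≠ y` both in `T` and in
`T'`, so `T = T'` by `Tri.pair`. For `p ≠ q ∈ E`: `inl p`, `inl q` are adjacent in `VG H S` iff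
`G.Adj p q` (→ by `pp`, or `p, q ∈ T` and `Tri.clique`; ← by `vir`); so `deg`, `conn` follow from
`hdeg`, `hconn`. -/
def PLANE : Prop :=
  ∀ (V : Type) [Finite V] [DecidableEq V] (G : SimpleGraph V) (F : Finset (Finset V))
    (H : SimpleGraph (V ⊕ {T // T ∈ F})) (X : Finset (V ⊕ {T // T ∈ F})) (u v : V)
    (E : Finset V), Tri G F → Keep G F H X u v → u ∉ E → v ∉ E → (∀ x ∈ E, Sum.inl x ∉ X) →
    (∀ x, Sum.inl x ∉ X → x ∈ E ∨ x = u ∨ x = v) → (∀ T ∈ F, (T ∩ E).card ≤ 2) →
    (∀ x ∈ E, Low G (E : Set V) x) → Conn G (E : Set V) →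
    Pl H ((X : Set (V ⊕ {T // T ∈ F}))ᶜ)

/-- **KEEPS**: `Keep` for the four modifications; `X` contains no `inr T` except in (c).

Proof. All six properties are checked directly.
(a) deletion of an edge `inl u - inl v`: no `T` contains `u` and `v`. (b) deletion of the edge
`inl z - inr T`, `x ∈ T`, `x ≠ z`: poles `z`, `x`. A `T'` containing `z` and `x` is `T` (`Tri.pair`), and
`inr T` is no longer adjacent to `z`. `vir`: if `p, q` (different from `z`, `x`) are covered by `T'`,
the edges from `inr T'` to `p`, `q` are not deleted. (c) contraction of `inr T` into `inl z`, where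
`x, t ∈ T`, `x, t, z` different; `inr T ∈ X`: poles `x`, `t`. The new edges are `inl z - inl x` and
`inl z - inl t` (`T` is a clique of `G` and no other `T'` contains `z, x` or `z, t`). A `T'` with
`x, t ∈ T'` is `T`, but `inr T ∈ X`. `vir`: `p, q` different from `x`, `t` and covered by `T'`: `T' ≠ T`
since `T` has only three elements. (d) point contraction: `inl x, inl y ∈ X`; the new edges of `addN`
are at `inl y`, so outside of `X` the graph is `YG G F`. `u = v` or `u`, `v` not adjacent in `G` (then no `T` contains both). -/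
def KEEPS : Prop :=
  ∀ (V : Type) [Finite V] [DecidableEq V] (G : SimpleGraph V) (F : Finset (Finset V)),
    Tri G F → ∀ X : Finset (V ⊕ {T // T ∈ F}),
    (∀ u v : V, (∀ T ∈ F, ¬ (u ∈ T ∧ v ∈ T)) → (∀ T, Sum.inr T ∉ X) →
      Keep G F ((YG G F).deleteEdges {s(Sum.inl u, Sum.inl v)}) X u v) ∧
    (∀ (T : {T // T ∈ F}) (z x : V), z ∈ T.1 → x ∈ T.1 → z ≠ x → (∀ T', Sum.inr T' ∉ X) →
      Keep G F ((YG G F).deleteEdges {s(Sum.inl z, Sum.inr T)}) X z x) ∧
    (∀ (T : {T // T ∈ F}) (z x t : V), z ∈ T.1 → x ∈ T.1 → t ∈ T.1 → z ≠ x → z ≠ t → x ≠ t →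
      (∀ T', Sum.inr T' ∈ X ↔ T' = T) →
      Keep G F (addN (YG G F) (Sum.inr T) (Sum.inl z)) X x t) ∧
    (∀ x y u v : V, Sum.inl x ∈ X → Sum.inl y ∈ X → Sum.inl u ∉ X → Sum.inl v ∉ X →
      (∀ T, Sum.inr T ∉ X) → (u = v ∨ ¬ G.Adj u v) → Keep G F (addN (YG G F) (Sum.inl x) (Sum.inl y)) X u v)

/-- **MINC**. Criterion for minimality, with different sets for the deletion and the contraction of
an edge; for the contraction the vertex which is contracted is in `X`.

Proof. `proper_minor_cases`: a minor `H` of `G` not isomorphic to `G` is a minor of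
`G.deleteEdges {s(x, y)}` for an edge `x y`, which is `n`-apex, so `H` is (`NApex.of_isMinor`,
`pl_iff`); or there is a model `A` of `H` in `G` and a vertex `w` of `H` with `x, y ∈ A w`, `x ~ y` (if
`x = y` does not occur since `x ~ y`). Say the first alternative holds (contraction of `x` into
`y`). Then `A' w = A w \ {x}` and `A' w' = A w'` for the others is a model of `H` in `addN G x y`:
`A w \ {x}` is connected (a closed nonempty subset `C`; add `x` if `y ∈ C`; it is closed in `A w` for
`G`, since all neighbours of `x` are neighbours of `y` or equal to `y` in `addN G x y`), edges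
from `x` to `A w'` are replaced by edges from `y`. It avoids `x`, so `H` is a minor of
`(addN G x y).induce {x}ᶜ`, and this graph is `n`-apex: delete `X.erase x`. (Use
`isMinor_induce_iff` and a direct argument, as in `minMinimal_of_edges`.) -/
def MINC : Prop :=
  ∀ (V : Type) [Finite V] [DecidableEq V] (G : SimpleGraph V) (n : ℕ), ¬ NApex n G →
    (∀ v, ∃ w, G.Adj v w) →
    (∀ x y, G.Adj x y → ∃ X : Finset V, X.card ≤ n ∧
      Pl (G.deleteEdges {s(x, y)}) ((X : Set V)ᶜ)) →
    (∀ x y, G.Adj x y →
      (∃ X : Finset V, x ∈ X ∧ X.card ≤ n + 1 ∧ Pl (addN G x y) ((X : Set V)ᶜ)) ∨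
      (∃ X : Finset V, y ∈ X ∧ X.card ≤ n + 1 ∧ Pl (addN G y x) ((X : Set V)ᶜ))) →
    MinMinimal n G

/-! ## Part 5: the two families -/

/-- **NOT1**. (Hypotheses: TRANSFER, BASE1.)

Proof. Let `X` with `|X| ≤ n` be deleted, `S` = the finset of the `T ∈ F` with `inr T ∈ X`, `P` = the points
`x` with `inl x ∉ X`. `|X|` is at least `S.card + (n + 5 - P.card)`, so `P.card ≥ S.card + 5`. BASE1
for `BaseG ⊤ ..`, then TRANSFER and `pl_iff`. -/
def NOT1 : Prop :=
  ∀ (n : ℕ) (F : Finset (Finset (Fin (n + 5)))), Tri (⊤ : SimpleGraph (Fin (n + 5))) F →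
    ¬ NApex n (YG (⊤ : SimpleGraph (Fin (n + 5))) F)

/-- **NOT2**. (Hypotheses: TRANSFER, BASE2.) As NOT1, with `n + 6` points, `A`, `B` the two
parts with three points. -/
def NOT2 : Prop :=
  ∀ (n : ℕ) (F : Finset (Finset (Fin 3 ⊕ Fin 3 ⊕ Fin n))), Tri (K331 n) F →
    ¬ NApex n (YG (K331 n) F)

/-- **MIN1**. (Hypotheses: MINC, PLANE, KEEPS, NOT1.)

Proof. MINC. No isolated vertices: `inr T` is adjacent to the points of `T`; a point `x` is adjacent to
any other point `y`, or `x, y ∈ T` and `x ~ inr T`. In all cases below use PLANE and KEEPS; the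
equator `E` has three points and is not in `F`, so `|T ∩ E| ≤ 2` for `T ∈ F`; in the complete graph
`Low` and `Conn` are clear. (*) From any four different points one can choose three such that
their set is not in `F` (two different three-subsets of the four points share two points, so at
most one is in `F`).
Deletion of `inl u - inl v`: poles `u, v`, `E` three of the `n + 3 ≥ 4` other points, `E ∉ F`; `X` = all
other points (`n` many). Deletion of `inl z - inr T`, `T = {z, x, t}`: poles `z`, `x`, `E ∌ z, x` as
before. (The same for the edge written in the other order, `Sym2.eq_swap`.) Contraction of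
`inl z - inr T`: contract `inr T` into `inl z`: poles `x`, `t`, `E` as before, `X` = `inr T` and the
`n` other points, `|X| = n + 1`. Contraction of `inl x - inl y`: choose four other points, `E` three
of them with `E ∉ F`, `u = v` the fourth; `X` = all other points, among them `x` and `y`:
`|X| = n + 5 - 4 = n + 1`. -/
def MIN1 : Prop :=
  ∀ (n : ℕ) (F : Finset (Finset (Fin (n + 5)))), 1 ≤ n →
    Tri (⊤ : SimpleGraph (Fin (n + 5))) F → MinMinimal n (YG (⊤ : SimpleGraph (Fin (n + 5))) F)

/-- **MIN2**. (Hypotheses: MINC, PLANE, KEEPS, NOT2.)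

Proof. MINC. No isolated vertices as in MIN1 (every point is adjacent to another one in `K331 n`).
`A`, `B` the two parts with three points. (*) If `x`, `y` are adjacent in `K331 n`, at most one of them
is in `A` and at most one is in `B`, so there are `a ≠ a'` in `A` and `b ≠ b'` in `B`, different from
`x`, `y`. `E = {a, a', b, b'}` is a four-cycle in `K331 n`, so connected with all degrees at most two.
A `T ∈ F` is a clique, so it contains at most one of `a, a'` and at most one of `b, b'`:
`|T ∩ E| ≤ 2`.
Deletion of `inl x - inl y`: poles `x`, `y`, `E` as in (*), `X` = the `n` other points. Deletion of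
`inl z - inr T`: `T = {z, x, t}`, poles `z`, `x` (adjacent in `K331 n`), `E` as in (*), `X` = the `n`
other points. Contraction of `inl z - inr T` (`inr T` into `inl z`): poles `x`, `t`, `E` as in (*),
`X` = `inr T` and the `n` other points. Contraction of `inl x - inl y`: `a, a', b, b'` as in (*), and a
further point `p` different from `x, y, a, a', b, b'` (`n ≥ 1`). If `p ∉ B`: poles `a`, `a'` (not
adjacent), `E = {b, b', p}` (`p` is adjacent to `b` and `b'`: connected, degrees at most two,
`|T ∩ E| ≤ 2`). If `p ∈ B`: poles `b`, `b'`, `E = {a, a', p}`. `X` = all other points, `n + 1` many, among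
them `x`, `y`. -/
def MIN2 : Prop :=
  ∀ (n : ℕ) (F : Finset (Finset (Fin 3 ⊕ Fin 3 ⊕ Fin n))), 1 ≤ n → Tri (K331 n) F →
    MinMinimal n (YG (K331 n) F)

end NApexGraphs.Fam.Goals
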